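import Pool.Agent.H.MP_58728c_al.A

set_option autoImplicit false

namespace Pool.Agent.H.MP_8ef39f_al

open Function Pointwise Pool.Agent.H.MP_4f47f1_al Pool.Agent.H.MP_58728c_al
open scoped commutatorElement

abbrev Cz {X : Type} [Group X] (L : Subgroup X) : Subgroup X := Subgroup.centralizer (L : Set X)

structure Comp {X : Type} [Group X] (L : Subgroup X) (ζ : X) : Prop where
  nor : L.Normal
  perf : L ≤ ⁅L, L⁆
  qs : ∀ W ≤ L, (∀ l ∈ L, ∀ w ∈ W, l * w * l⁻¹ ∈ W) → W ≤ Cz L ∨ W = L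
  ex : ∃ u ∈ L, u ∉ Cz L ∧ u ^ 2 ∈ Cz L
  all : ∀ u ∈ L, u ∉ Cz L → u ^ 2 ∈ Cz L → u ^ 2 = ζ

variable {X Y : Type} [Group X] [Group Y]

lemma Comp.nab {L : Subgroup X} {ζ : X} (h : Comp L ζ) : ¬ L ≤ Cz L := fun h2 => by
  obtain ⟨u, h3, h4, -⟩ := h.ex
  exact h4 (h2 h3)

lemma Comp.uniq {L : Subgroup X} {ζ ξ : X} (h : Comp L ζ) (h' : Comp L ξ) : ζ = ξ := by
  obtain ⟨u, h3, h4, h5⟩ := h.ex
  exact (h.all u h3 h4 h5).symm.trans (h'.all u h3 h4 h5)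

lemma Comp.mem {L : Subgroup X} {ζ : X} (h : Comp L ζ) : ζ ∈ L := by
  obtain ⟨u, h3, h4, h5⟩ := h.ex
  rw [← h.all u h3 h4 h5]; exact L.pow_mem h3 2

lemma Comp.cent {L : Subgroup X} {ζ : X} (h : Comp L ζ) : ζ ∈ Subgroup.center X := by
  obtain ⟨u, h3, h4, h5⟩ := h.ex
  have := h.nor
  have hn : (Cz L).Normal := Subgroup.normal_centralizer
  rw [Subgroup.mem_center_iff]
  intro g
  have := h.all _ (h.nor.conj_mem _ h3 g) (fun h6 => h4 (by simpa [mul_assoc] using hn.conj_mem _ h6 g⁻¹))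
    (by rw [conj_pow]; exact hn.conj_mem _ h5 g)
  rw [conj_pow, h.all u h3 h4 h5] at this
  exact mul_inv_eq_iff_eq_mul.1 this

lemma comm_eq {a b c d : X} (h1 : Commute c a) (h2 : Commute c b) (h3 : Commute c d)
    (h4 : Commute d a) (h5 : Commute d b) : ⁅c * a, d * b⁆ = ⁅a, b⁆ := by
  have e1 : c * a * (d * b) * (c * a)⁻¹ = d * (a * b * a⁻¹) := by
    calc c * a * (d * b) * (c * a)⁻¹ = c * (a * d * b * a⁻¹) * c⁻¹ := by group
      _ = a * d * b * a⁻¹ := by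
        rw [(((h1.mul_right h3).mul_right h2).mul_right h1.inv_right).eq]; group
      _ = _ := by rw [← h4.eq]; group
  rw [commutatorElement_def, commutatorElement_def, e1,
    ((h4.mul_right h5).mul_right h4.inv_right).eq]
  calc a * b * a⁻¹ * d * (d * b)⁻¹ = a * b * a⁻¹ * (d * b⁻¹) * d⁻¹ := by group
    _ = _ := by rw [h5.inv_right.eq]; group

lemma comm_le {D W : Subgroup X} (hW : W ≤ D) (h : ∀ d ∈ D, ∃ w ∈ W, d * w⁻¹ ∈ Cz D) :
    ⁅D, D⁆ ≤ ⁅W, W⁆ := by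
  rw [Subgroup.commutator_le]
  intro a ha b hb
  obtain ⟨v, hv, h1⟩ := h a ha
  obtain ⟨w, hw, h2⟩ := h b hb
  have := comm_eq (h1 v (hW hv)).symm (h1 w (hW hw)).symm
    (h1 _ (D.mul_mem hb (D.inv_mem (hW hw)))).symm (h2 v (hW hv)).symm (h2 w (hW hw)).symm
  rw [inv_mul_cancel_right, inv_mul_cancel_right] at this
  rw [this]
  exact Subgroup.commutator_mem_commutator hv hw

lemma Comp.cen {L : Subgroup X} {ζ : X} (h : Comp L ζ) (c : X)
    (hc : ∀ l ∈ L, c * l * c⁻¹ * l⁻¹ ∈ Cz L) : c ∈ Cz L := by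
  have : ⁅L, L⁆ ≤ Subgroup.centralizer {c} := by
    rw [Subgroup.commutator_le]
    intro a ha b hb
    have := comm_eq (hc a ha a ha).symm (hc a ha b hb).symm
      (hc a ha _ (L.mul_mem (h.nor.conj_mem _ hb c) (L.inv_mem hb))).symm
      (hc b hb a ha).symm (hc b hb b hb).symm
    rw [inv_mul_cancel_right, inv_mul_cancel_right] at this
    rw [Subgroup.mem_centralizer_singleton_iff]
    calc ⁅a, b⁆ * c = ⁅c * a * c⁻¹, c * b * c⁻¹⁆ * c := by rw [this]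
      _ = _ := by simp only [commutatorElement_def]; group
  intro l hl
  exact Subgroup.mem_centralizer_singleton_iff.1 (this (h.perf hl))

lemma Comp.dich {L : Subgroup X} {ζ : X} (h : Comp L ζ) {M : Subgroup X} (hM : M.IsSubnormal) :
    L ≤ M ∨ M ≤ Cz L := by
  induction hM with
  | top => exact Or.inl le_top
  | step H K hle _ hn ih =>
    rcases ih with ih | ih
    swap
    · exact Or.inr (hle.trans ih)
    have hc : ∀ l ∈ L, ∀ w ∈ H, l * w * l⁻¹ ∈ H := fun l hl w hw =>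
      hn.conj_mem ⟨w, hle hw⟩ hw ⟨l, ih hl⟩
    rcases h.qs (L ⊓ H) inf_le_left (fun l hl w hw => ⟨h.nor.conj_mem _ hw.1 _, hc l hl w hw.2⟩)
      with h1 | h1
    · refine Or.inr fun c hc2 => h.cen c fun l hl => h1 ⟨L.mul_mem (h.nor.conj_mem _ hl c)
        (L.inv_mem hl), ?_⟩
      have := H.mul_mem hc2 (hc l hl _ (H.inv_mem hc2))
      simpa [mul_assoc] using this
    · exact Or.inl (inf_eq_left.1 h1)

lemma Comp.sep {L K : Subgroup X} {ζ ξ : X} (h : Comp L ζ) (h' : Comp K ξ) (hne : L ≠ K) :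
    K ≤ Cz L := by
  refine (h.dich h'.nor.isSubnormal).resolve_left fun hle => ?_
  rcases h'.qs L hle (fun l _ w hw => h.nor.conj_mem _ hw l) with h1 | h1
  · exact h.nab (h1.trans (Subgroup.centralizer_le hle))
  · exact hne h1

lemma cz_map (f : X →* Y) (L : Subgroup X) {c : X} (h : c ∈ Cz L) : f c ∈ Cz (L.map f) := by
  rintro _ ⟨l, hl, rfl⟩
  rw [← map_mul, h l hl, map_mul]

lemma Comp.cz_back {L : Subgroup X} {ζ : X} (h : Comp L ζ) (f : X →* Y) (hf : ¬ L ≤ f.ker) {c : X}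
    (hc : f c ∈ Cz (L.map f)) : c ∈ Cz L := by
  have := h.nor
  have h1 := (h.qs (L ⊓ f.ker) inf_le_left fun l _ w hw =>
    (inferInstance : (L ⊓ f.ker).Normal).conj_mem _ hw l).resolve_right fun e => hf (inf_eq_left.1 e)
  refine h.cen c fun l hl => h1 ⟨L.mul_mem (h.nor.conj_mem _ hl c) (L.inv_mem hl), ?_⟩
  have := hc (f l) (Subgroup.mem_map_of_mem f hl)
  simp [← this]

lemma Comp.map {L : Subgroup X} {ζ : X} (h : Comp L ζ) (f : X →* Y) (hf : ¬ L ≤ f.ker)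
    (hn : (L.map f).Normal) : Comp (L.map f) (f ζ) := by
  refine ⟨hn, ?_, fun W hW hc => ?_, ?_, ?_⟩
  · rw [← Subgroup.map_commutator]; exact Subgroup.map_mono h.perf
  · rcases h.qs (L ⊓ W.comap f) inf_le_left (fun l hl w hw => ⟨h.nor.conj_mem _ hw.1 _, by
      simpa using hc _ (Subgroup.mem_map_of_mem f hl) _ hw.2⟩) with h1 | h1
    · left
      intro w hw
      obtain ⟨l, hl, rfl⟩ := hW hw
      exact cz_map f L (h1 ⟨hl, hw⟩)
    · exact Or.inr (le_antisymm hW (Subgroup.map_le_iff_le_comap.2 (inf_eq_left.1 h1)))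
  · obtain ⟨u, h3, h4, h5⟩ := h.ex
    exact ⟨f u, Subgroup.mem_map_of_mem f h3, fun h6 => h4 (h.cz_back f hf h6), by
      rw [← map_pow]; exact cz_map f L h5⟩
  · rintro _ ⟨u, hu, rfl⟩ h4 h5
    rw [← map_pow] at h5 ⊢
    rw [h.all u hu (fun h6 => h4 (cz_map f L h6)) (h.cz_back f hf h5)]

lemma Comp.lift {K : Subgroup Y} {ξ : Y} (h : Comp K ξ) (f : X →* Y) (D : Subgroup X) [D.Normal]
    (h1 : D.map f = K) (h2 : ∀ d ∈ D, f d ∈ Cz K → d ∈ Cz D)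
    (h3 : ∀ u ∈ D, ∀ v ∈ D, f u ∉ Cz K → f u ^ 2 ∈ Cz K → f v ∉ Cz K → f v ^ 2 ∈ Cz K →
      u ^ 2 = v ^ 2) : ∃ L ζ, Comp L ζ ∧ L.map f = K := by
  have hle : ⁅D, D⁆ ≤ D := Subgroup.commutator_le_left _ _
  have := h.nor
  have e : ⁅D, D⁆.map f = K := by
    rw [Subgroup.map_commutator, h1]
    exact le_antisymm (Subgroup.commutator_le_left _ _) h.perf
  have key : ∀ W ≤ D, W.map f = K → ⁅D, D⁆ ≤ ⁅W, W⁆ := fun W hW hK => comm_le hW fun d hd => by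
    obtain ⟨w, hw, e2⟩ : f d ∈ W.map f := hK ▸ h1 ▸ Subgroup.mem_map_of_mem f hd
    exact ⟨w, hw, h2 _ (D.mul_mem hd (D.inv_mem (hW hw))) (by simp [e2])⟩
  have c1 : ∀ u ∈ ⁅D, D⁆, u ∈ Cz ⁅D, D⁆ ↔ f u ∈ Cz K := fun u hu =>
    ⟨fun h => e ▸ cz_map f _ h, fun h => Subgroup.centralizer_le hle (h2 u (hle hu) h)⟩
  obtain ⟨u, a, b, c⟩ := h.ex
  obtain ⟨u, hu, rfl⟩ : u ∈ ⁅D, D⁆.map f := e ▸ a
  refine ⟨⁅D, D⁆, u ^ 2, ⟨inferInstance, key _ hle e, fun W hW hc => ?_,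
    ⟨u, hu, mt (c1 u hu).1 b, (c1 _ (Subgroup.pow_mem _ hu 2)).2 (by rwa [map_pow])⟩,
    fun v hv v1 v2 => h3 v (hle hv) u (hle hu) (mt (c1 v hv).2 v1) (by
      rw [← map_pow]; exact (c1 _ (Subgroup.pow_mem _ hv 2)).1 v2) b c⟩, e⟩
  rcases h.qs (W.map f) (e ▸ Subgroup.map_mono hW) (by
    rintro l hl _ ⟨w, hw, rfl⟩
    obtain ⟨l, hl', rfl⟩ : l ∈ ⁅D, D⁆.map f := e ▸ hl
    exact ⟨_, hc l hl' w hw, by simp⟩) with h4 | h4
  · exact Or.inl fun w hw => (c1 w (hW hw)).2 (h4 (Subgroup.mem_map_of_mem f hw))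
  · exact Or.inr (le_antisymm hW ((key W (hW.trans hle) h4).trans (Subgroup.commutator_le_self _)))

lemma Comp.quot {L : Subgroup X} {ζ : X} (h : Comp L ζ) : ∃ (T : Type) (_ : Group T) (τ : L →* T),
    IsSimpleGroup T ∧ (¬ ∀ a b : T, a * b = b * a) ∧ Surjective τ ∧ ∀ l, τ l = 1 ↔ l.1 ∈ Cz L := by
  have := h.nor
  have : (Cz L).Normal := Subgroup.normal_centralizer
  have hk : ∀ l : L, (l : L ⧸ (Cz L).subgroupOf L) = 1 ↔ l.1 ∈ Cz L := fun l =>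
    QuotientGroup.eq_one_iff l
  refine ⟨L ⧸ (Cz L).subgroupOf L, _, QuotientGroup.mk' _, ?_, fun hc => h.nab ?_,
    QuotientGroup.mk'_surjective _, hk⟩
  · obtain ⟨u, a, b, -⟩ := h.ex
    have : Nontrivial (L ⧸ (Cz L).subgroupOf L) := ⟨_, 1, mt (hk ⟨u, a⟩).1 b⟩
    refine ⟨fun N hN => ?_⟩
    rcases h.qs ((N.comap (QuotientGroup.mk' _)).map L.subtype) (Subgroup.map_subtype_le _) (by
      rintro l hl _ ⟨w, hw, rfl⟩
      exact ⟨_, (hN.comap _).conj_mem _ hw ⟨l, hl⟩, rfl⟩) with h1 | h1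
    · left
      rw [eq_bot_iff]
      intro x hx
      obtain ⟨x, rfl⟩ := QuotientGroup.mk_surjective x
      exact (hk x).2 (h1 ⟨x, hx, rfl⟩)
    · right
      rw [eq_top_iff]
      intro x _
      obtain ⟨x, rfl⟩ := QuotientGroup.mk_surjective x
      obtain ⟨y, hy, e⟩ : x.1 ∈ (N.comap (QuotientGroup.mk' _)).map L.subtype := h1.symm ▸ x.2
      rw [← show y = x from Subtype.ext e]; exact hy
  · refine h.perf.trans ?_
    rw [Subgroup.commutator_le]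
    intro a ha b hb
    refine (hk ⁅(⟨a, ha⟩ : L), (⟨b, hb⟩ : L)⁆).1 ?_
    rw [← QuotientGroup.mk'_apply, map_commutatorElement, commutatorElement_eq_one_iff_mul_comm]
    exact hc _ _

end Pool.Agent.H.MP_8ef39f_al
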