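import Pool.Agent.H.MP_8ef39f_al.A

set_option autoImplicit false

namespace Pool.Agent.H.MP_8ef39f_al

open Function Pointwise Pool.Agent.H.MP_4f47f1_al Pool.Agent.H.MP_58728c_al

def PP (X : Type) [Group X] : Prop :=
  ∀ (M T : Type) [Group M] [Group T] (ι : M →* X) (σ : M →* T), ι.range.IsSubnormal →
    IsSimpleGroup T → (¬ ∀ a b : T, a * b = b * a) → Surjective σ → ι.ker ≤ σ.ker →
    ∃ L ζ, Comp L ζ ∧ L ≤ ι.range ∧ ∃ m, ι m ∈ L ∧ σ m ≠ 1

variable {X Y : Type} [Group X] [Group Y]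

lemma PP.sub (h : PP X) (Y : Subgroup X) (hY : Y.IsSubnormal) : PP Y := by
  intro M T _ _ ι σ h1 h2 h3 h4 h5
  obtain ⟨L, ζ, a, b, m, c, d⟩ := h M T (Y.subtype.comp ι) σ (by
    rw [MonoidHom.range_comp]; exact h1.trans' hY) h2 h3 h4 fun x hx =>
      h5 (Subtype.ext hx : ι x = 1)
  have := a.nor
  have hle : L ≤ Y := b.trans (by rw [MonoidHom.range_comp]; exact Subgroup.map_subtype_le _)
  have e : (L.comap Y.subtype).map Y.subtype = L := Subgroup.map_subgroupOf_eq_of_le hle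
  obtain ⟨K, ξ, k1, k2⟩ := a.lift Y.subtype (L.comap Y.subtype) e
    (fun d _ hd l hl => Subtype.ext (hd l hl)) fun u hu v hv u1 u2 v1 v2 =>
      Subtype.ext ((a.all _ hu u1 u2).trans (a.all _ hv v1 v2).symm)
  refine ⟨K, ξ, k1, fun x hx => ?_, m, ?_, d⟩
  · obtain ⟨y, hy⟩ := b (k2 ▸ Subgroup.mem_map_of_mem Y.subtype hx)
    exact ⟨y, Subtype.ext hy⟩
  · obtain ⟨y, hy, e2⟩ : _ ∈ K.map Y.subtype := k2 ▸ c
    rwa [← show y = ι m from Subtype.ext e2]

lemma PP.quo (h : PP X) (f : X →* Y) (hf : Surjective f) : PP Y := by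
  intro M T _ _ ι σ h1 h2 h3 h4 h5
  let S : Subgroup (X × M) := MonoidHom.eqLocus (f.comp (MonoidHom.fst _ _))
    (ι.comp (MonoidHom.snd _ _))
  let p1 : S →* X := (MonoidHom.fst _ _).comp S.subtype
  let p2 : S →* M := (MonoidHom.snd _ _).comp S.subtype
  have hS : ∀ s : S, f (p1 s) = ι (p2 s) := fun s => s.2
  have q2 : Surjective p2 := fun m => by
    obtain ⟨x, hx⟩ := hf (ι m)
    exact ⟨⟨(x, m), hx⟩, rfl⟩
  have e : p1.range = ι.range.comap f := by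
    ext x
    exact ⟨fun ⟨s, hs⟩ => ⟨p2 s, by rw [← hS, hs]⟩, fun ⟨m, hm⟩ => ⟨⟨(x, m), hm.symm⟩, rfl⟩⟩
  obtain ⟨L, ζ, a, b, m, c, d⟩ := h S T p1 (σ.comp p2) (e ▸ h1.comap f) h2 h3 (h4.comp q2)
    fun s hs => h5 (show ι (p2 s) = 1 by rw [← hS, hs, map_one])
  refine ⟨L.map f, f ζ, a.map f (fun hle => d (h5 (show ι (p2 m) = 1 from hS m ▸ hle c)))
    (a.nor.map f hf), Subgroup.map_le_iff_le_comap.2 (e ▸ b), p2 m,
    hS m ▸ Subgroup.mem_map_of_mem f c, d⟩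

lemma PP.get (h : PP X) {K : Subgroup Y} {ξ : Y} (hK : Comp K ξ) {M : Type} [Group M]
    (ι : M →* X) (h1 : ι.range.IsSubnormal) (g : M →* Y) (h2 : g.range = K)
    (h3 : ∀ m, ι m = 1 → g m ∈ Cz K) :
    ∃ L ζ, Comp L ζ ∧ L ≤ ι.range ∧ ∃ m, ι m ∈ L ∧ g m ∉ Cz K := by
  obtain ⟨T, _, τ, t1, t2, t3, t4⟩ := hK.quot
  obtain ⟨L, ζ, a, b, m, c, d⟩ := h M T ι (τ.comp (g.codRestrict K fun m => h2 ▸ ⟨m, rfl⟩)) h1 t1 t2
    (t3.comp fun ⟨y, hy⟩ => by
      obtain ⟨m, rfl⟩ : y ∈ g.range := h2 ▸ hy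
      exact ⟨m, rfl⟩) fun m hm => (t4 _).2 (h3 m hm)
  exact ⟨L, ζ, a, b, m, c, fun h => d ((t4 _).2 h)⟩

lemma Comp.full {K : Subgroup Y} {ξ : Y} (h : Comp K ξ) (W : Subgroup Y) (hn : W.Normal)
    (h1 : W ≤ K) (h2 : ¬ W ≤ Cz K) : W = K :=
  (h.qs W h1 fun l _ _ hw => hn.conj_mem _ hw l).resolve_left h2

lemma lift2 {Z : Type} [Group Z] (f : X →* Y) (g : X →* Z) (hf : Surjective f) (hg : Surjective g)
    (hk : ∀ x, f x = 1 → g x = 1 → x = 1) (h : PP Z) {K : Subgroup Y} {ξ : Y} (hK : Comp K ξ) :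
    ∃ L ζ, Comp L ζ ∧ L.map f = K := by
  have := hK.nor
  have ex : ∀ x y, f x = f y → g x = g y → x = y := fun x y a b =>
    mul_inv_eq_one.1 (hk _ (by simp [a]) (by simp [b]))
  by_cases hc : (g.ker ⊓ K.comap f).map f ≤ Cz K
  swap
  · refine hK.lift f (g.ker ⊓ K.comap f) (hK.full _ (Subgroup.Normal.map inferInstance f hf)
      (Subgroup.map_le_iff_le_comap.2 inf_le_right) hc) (fun d hd h1 l hl => ex _ _ ?_ ?_)
      fun u hu v hv u1 u2 v1 v2 => ex _ _ ?_ ?_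
    · rw [map_mul, map_mul]; exact h1 _ hl.2
    · rw [map_mul, map_mul, hl.1, hd.1]
    · rw [map_pow, map_pow, hK.all _ hu.2 u1 u2, hK.all _ hv.2 v1 v2]
    · rw [map_pow, map_pow, hu.1, hv.1]
  have hc' : ∀ x, f x ∈ K → g x = 1 → f x ∈ Cz K := fun x a b => hc ⟨x, ⟨b, a⟩, rfl⟩
  obtain ⟨L, ζ, a, b, m, c, d⟩ := h.get hK (g.comp (K.comap f).subtype) (by
      rw [MonoidHom.range_comp, Subgroup.range_subtype]
      exact (Subgroup.Normal.map inferInstance g hg).isSubnormal) (f.comp (K.comap f).subtype)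
    (by rw [MonoidHom.range_comp, Subgroup.range_subtype, Subgroup.map_comap_eq_self_of_surjective hf])
    fun m hm => hc' _ m.2 hm
  have := a.nor
  have : (Cz L).Normal := Subgroup.normal_centralizer
  have : (Cz K).Normal := Subgroup.normal_centralizer
  set D := K.comap f ⊓ L.comap g with hD
  have e1 : D.map f = K := hK.full _ (Subgroup.Normal.map inferInstance f hf)
    (Subgroup.map_le_iff_le_comap.2 inf_le_left) fun hle => d (hle ⟨m, ⟨m.2, c⟩, rfl⟩)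
  have l1 : ∀ x ∈ D, f x ∈ Cz K → g x ∈ Cz L := fun x hx h1 => by
    by_contra hne
    have := a.full ((D ⊓ (Cz K).comap f).map g) (Subgroup.Normal.map inferInstance g hg)
      (Subgroup.map_le_iff_le_comap.2 (inf_le_left.trans inf_le_right))
      fun hle => hne (hle ⟨x, ⟨hx, h1⟩, rfl⟩)
    obtain ⟨y, hy, e⟩ : _ ∈ (D ⊓ (Cz K).comap f).map g := this.symm ▸ c
    have e' : g y = g m := e
    have := (Cz K).mul_mem hy.2 (hc' (y⁻¹ * m) ((K.comap f).mul_mem (Subgroup.inv_mem _ hy.1.1) m.2)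
      (by simp [e']))
    exact d (by simpa using this)
  have l2 : ∀ x ∈ D, g x ∈ Cz L → f x ∈ Cz K := fun x hx h1 => by
    by_contra hne
    have := hK.full ((D ⊓ (Cz L).comap g).map f) (Subgroup.Normal.map inferInstance f hf)
      (Subgroup.map_le_iff_le_comap.2 (inf_le_left.trans inf_le_left))
      fun hle => hne (hle ⟨x, ⟨hx, h1⟩, rfl⟩)
    refine a.nab fun l hl => ?_
    obtain ⟨n, rfl⟩ := b hl
    obtain ⟨y, hy, e⟩ : f n ∈ (D ⊓ (Cz L).comap g).map f := this.symm ▸ n.2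
    have := (Cz L).mul_mem hy.2 (l1 (y⁻¹ * n) (D.mul_mem (D.inv_mem hy.1) ⟨n.2, hl⟩) (by simp [e]))
    simpa using this
  refine hK.lift f D e1 (fun d hd h1 l hl => ex _ _ ?_ ?_) fun u hu v hv u1 u2 v1 v2 => ex _ _ ?_ ?_
  · rw [map_mul, map_mul]; exact h1 _ hl.1
  · rw [map_mul, map_mul]; exact l1 d hd h1 _ hl.2
  · rw [map_pow, map_pow, hK.all _ hu.1 u1 u2, hK.all _ hv.1 v1 v2]
  · have k : ∀ u ∈ D, f u ∉ Cz K → f u ^ 2 ∈ Cz K → g (u ^ 2) = ζ := fun u hu u1 u2 => by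
      rw [map_pow]
      refine a.all _ hu.2 (mt (l2 u hu) u1) ?_
      rw [← map_pow] at u2 ⊢
      exact l1 _ (D.pow_mem hu 2) u2
    rw [k u hu u1 u2, k v hv v1 v2]

lemma PP.sd {Z : Type} [Group Z] (f : X →* Y) (g : X →* Z) (hf : Surjective f) (hg : Surjective g)
    (hk : ∀ x, f x = 1 → g x = 1 → x = 1) (h1 : PP Y) (h2 : PP Z) : PP X := by
  intro M T _ _ ι σ a1 a2 a3 a4 a5
  have key : ∀ (Y Z : Type) [Group Y] [Group Z] (f : X →* Y) (g : X →* Z), Surjective f →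
      Surjective g → (∀ x, f x = 1 → g x = 1 → x = 1) → PP Y → PP Z → (f.comp ι).ker ≤ σ.ker →
      ∃ L ζ, Comp L ζ ∧ L ≤ ι.range ∧ ∃ m, ι m ∈ L ∧ σ m ≠ 1 := by
    intro Y Z _ _ f g hf hg hk h1 h2 hle
    obtain ⟨K, ξ, k1, k2, m, k3, k4⟩ := h1 M T (f.comp ι) σ (by
      rw [MonoidHom.range_comp]; exact a1.map hf) a2 a3 a4 hle
    obtain ⟨L, ζ, l1, rfl⟩ := lift2 f g hf hg hk h2 k1
    have l2 : L ≤ ι.range := (l1.dich a1).resolve_right fun h => k1.nab fun y hy => by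
      obtain ⟨n, rfl⟩ := k2 hy
      exact cz_map f L (h ⟨n, rfl⟩)
    obtain ⟨l, hl, e⟩ := k3
    obtain ⟨n, rfl⟩ := l2 hl
    refine ⟨L, ζ, l1, l2, n, hl, fun h => k4 ?_⟩
    have e' : f (ι n) = f (ι m) := e
    have : σ (n⁻¹ * m) = 1 := hle (by simp [MonoidHom.mem_ker, e'])
    simpa [h] using this
  by_cases b1 : (f.comp ι).ker ≤ σ.ker
  · exact key Y Z f g hf hg hk h1 h2 b1
  refine key Z Y g f hg hf (fun x a b => hk x b a) h2 h1 ?_
  by_contra b2
  have t : ∀ N : Subgroup M, N.Normal → ¬ N ≤ σ.ker → N.map σ = ⊤ := fun N hN h =>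
    (a2.eq_bot_or_eq_top_of_normal _ (hN.map σ a4)).resolve_left fun e =>
      h ((Subgroup.map_eq_bot_iff _).1 e)
  refine a3 fun s t' => ?_
  obtain ⟨x, hx, rfl⟩ : s ∈ (f.comp ι).ker.map σ := t _ inferInstance b1 ▸ Subgroup.mem_top _
  obtain ⟨y, hy, rfl⟩ : t' ∈ (g.comp ι).ker.map σ := t _ inferInstance b2 ▸ Subgroup.mem_top _
  have hx' : f (ι x) = 1 := hx
  have hy' : g (ι y) = 1 := hy
  have : σ (x * y * x⁻¹ * y⁻¹) = 1 := a5 (hk _ (by simp [hx']) (by simp [hy']))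
  rw [map_mul, map_mul, map_mul, map_inv, map_inv, mul_inv_eq_one, mul_inv_eq_iff_eq_mul] at this
  exact this

def Cs {k : ℕ} (x : Fin k → X) : Set (Subgroup X × X) :=
  {p | Comp p.1 p.2 ∧ ∀ j, x j ∉ p.1 ⊔ Cz p.1}

def Cn (X : Type) [Group X] : Type := Subgroup.center X

instance : CommGroup (Cn X) :=
  { (inferInstance : Group (Subgroup.center X)) with
    mul_comm := fun a b => Subtype.ext (Subgroup.mem_center_iff.1 b.2 a.1) }

def cs (X : Type) [Group X] : Cn X →* X := (Subgroup.center X).subtype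

open Classical in
noncomputable def zc (p : Subgroup X × X) : Cn X :=
  if h : p.2 ∈ Subgroup.center X then ⟨p.2, h⟩ else 1

lemma cs_zc {p : Subgroup X × X} (h : Comp p.1 p.2) : cs X (zc p) = p.2 := by
  rw [zc, dif_pos h.cent]; rfl

noncomputable def val {k : ℕ} (x : Fin k → X) : X := cs X (∏ᶠ p ∈ Cs x, zc p)

lemma two {ι W V : Type} [CommGroup W] [CommGroup V] (s : Set ι) (hs : s.Finite) (a : W →* X)
    (b : V →* X) (z : ι → W) (y : ι → V) (h : ∀ p ∈ s, a (z p) = b (y p)) :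
    a (∏ᶠ p ∈ s, z p) = b (∏ᶠ p ∈ s, y p) := by
  induction s, hs using Set.Finite.induction_on with
  | empty => simp
  | insert h1 h2 ih =>
    rw [finprod_mem_insert _ h1 h2, finprod_mem_insert _ h1 h2, map_mul, map_mul,
      h _ (Set.mem_insert _ _), ih fun p hp => h p (Set.mem_insert_of_mem _ hp)]

lemma transfer [Finite X] {k : ℕ} (f : X →* Y) (x : Fin k → X)
    (h1 : ∀ p ∈ Cs x, (p.1.map f).Normal)
    (h2 : ∀ q ∈ Cs (f ∘ x), ∃ L ζ, Comp L ζ ∧ L.map f = q.1) : f (val x) = val (f ∘ x) := by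
  set S := {p ∈ Cs x | ¬ p.1 ≤ f.ker} with hS
  have hb : Set.BijOn (fun p : Subgroup X × X => (p.1.map f, f p.2)) S (Cs (f ∘ x)) := by
    refine ⟨fun p hp => ⟨hp.1.1.map f hp.2 (h1 p hp.1), fun j hj => hp.1.2 j ?_⟩,
      fun p hp q hq e => ?_, fun q hq => ?_⟩
    · have := h1 p hp.1
      have : f (x j) ∈ (p.1.map f : Set Y) * (Cz (p.1.map f) : Set Y) := by
        rw [← Subgroup.normal_mul]; exact hj
      obtain ⟨_, ⟨l, hl, rfl⟩, c, hc, e⟩ := this
      rw [show x j = l * (l⁻¹ * x j) by group]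
      refine Subgroup.mul_mem_sup hl (hp.1.1.cz_back f hp.2 ?_)
      rw [map_mul, map_inv, ← e]
      simpa using hc
    · have e1 : p.1.map f = q.1.map f := congrArg Prod.fst e
      have e2 : p.1 = q.1 := by
        by_contra hne
        refine (hp.1.1.map f hp.2 (h1 p hp.1)).nab fun y hy => ?_
        obtain ⟨l, hl, rfl⟩ : y ∈ q.1.map f := e1 ▸ hy
        exact cz_map f _ (hp.1.1.sep hq.1.1 hne hl)
      exact Prod.ext e2 (hp.1.1.uniq (e2 ▸ hq.1.1))
    · obtain ⟨L, ζ, a, b⟩ := h2 q hq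
      have c : ¬ L ≤ f.ker := fun h => hq.1.nab (by
        rw [← b, (Subgroup.map_eq_bot_iff _).2 h]; exact bot_le)
      refine ⟨(L, ζ), ⟨⟨a, fun j hj => hq.2 j ?_⟩, c⟩, Prod.ext b
        ((b ▸ a.map f c (b ▸ hq.1.nor)).uniq hq.1)⟩
      rw [← b]
      exact (sup_le (Subgroup.map_le_iff_le_comap.1 le_sup_left) fun y hy =>
        Subgroup.mem_sup_right (cz_map f L hy) : L ⊔ Cz L ≤ (L.map f ⊔ Cz (L.map f)).comap f) hj
  rw [val, val, ← finprod_mem_eq_of_bijOn _ hb fun _ _ => rfl,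
    ← finprod_mem_inter_mul_sdiff S (Set.toFinite (Cs x)),
    Set.inter_eq_right.2 (Set.sep_subset _ _), map_mul, map_mul]
  have e1 := two S (Set.toFinite _) (f.comp (cs X)) (cs Y) zc (fun p => zc (p.1.map f, f p.2))
    fun p hp => by rw [MonoidHom.comp_apply, cs_zc hp.1.1, cs_zc (hb.1 hp).1]
  have e2 := two (Cs x \ S) (Set.toFinite _) (f.comp (cs X)) (1 : Cn X →* Y) zc zc fun p hp => by
    rw [MonoidHom.comp_apply, cs_zc hp.1.1]
    exact (not_not.1 fun h => hp.2 ⟨hp.1, h⟩ : p.1 ≤ f.ker) hp.1.1.mem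
  rw [MonoidHom.comp_apply] at e1 e2
  rw [e1, e2, MonoidHom.one_apply, mul_one]

lemma val_quo [Finite X] (h : PP X) {k : ℕ} (f : X →* Y) (hf : Surjective f) (x : Fin k → X) :
    f (val x) = val (f ∘ x) := by
  refine transfer f x (fun p hp => hp.1.nor.map f hf) fun q hq => ?_
  have := hq.1.nor
  obtain ⟨L, ζ, a, b, m, c, d⟩ := h.get hq.1 (q.1.comap f).subtype (by
      rw [Subgroup.range_subtype]; exact Subgroup.Normal.isSubnormal inferInstance)
    (f.comp (q.1.comap f).subtype)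
    (by rw [MonoidHom.range_comp, Subgroup.range_subtype, Subgroup.map_comap_eq_self_of_surjective hf])
    fun m hm => by
      rw [MonoidHom.comp_apply, hm, map_one]; exact Subgroup.one_mem _
  rw [Subgroup.range_subtype] at b
  exact ⟨L, ζ, a, hq.1.full _ (a.nor.map f hf) (Subgroup.map_le_iff_le_comap.2 b)
    fun hle => d (hle ⟨m, c, rfl⟩)⟩

lemma val_sub [Finite X] (h : PP X) {k : ℕ} (Y : Subgroup X) (hY : Y.IsSubnormal)
    (x : Fin (k + 1) → Y) : Y.subtype (val x) = val (Y.subtype ∘ x) := by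
  refine transfer Y.subtype x (fun p hp => ?_) fun q hq => ?_
  · have := hp.1.nor
    obtain ⟨L, ζ, a, b, m, c, d⟩ := h.get hp.1 (Y.subtype.comp p.1.subtype) (by
        rw [MonoidHom.range_comp, Subgroup.range_subtype]
        exact (Subgroup.Normal.isSubnormal inferInstance).trans' hY) p.1.subtype
      (Subgroup.range_subtype _) fun m hm => by
        rw [show p.1.subtype m = 1 from Subtype.ext hm]; exact Subgroup.one_mem _
    rw [MonoidHom.range_comp, Subgroup.range_subtype] at b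
    have := hp.1.full (L.comap Y.subtype) (a.nor.comap _) (fun y hy => by
      obtain ⟨z, hz, e⟩ := b hy
      rwa [← show z = y from Subtype.ext e]) fun hle => d (hle c)
    rw [← this, le_antisymm (Subgroup.map_comap_le _ _) (b.trans (Subgroup.map_mono this.ge))]
    exact a.nor
  · have := hq.1.nor
    have hle : q.1 ≤ Y := (hq.1.dich hY).resolve_right fun h =>
      hq.2 0 (Subgroup.mem_sup_right (h (x 0).2))
    exact hq.1.lift Y.subtype (q.1.comap Y.subtype) (Subgroup.map_subgroupOf_eq_of_le hle)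
      (fun d _ hd l hl => Subtype.ext (hd l hl)) fun u hu v hv u1 u2 v1 v2 =>
        Subtype.ext ((hq.1.all _ hu u1 u2).trans (hq.1.all _ hv v1 v2).symm)

end Pool.Agent.H.MP_8ef39f_al
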