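import Pool.Agent.H.MP_8ef39f_al.B

set_option autoImplicit false

namespace Pool.Agent.H.MP_8ef39f_al

open Function Pointwise Pool.Agent.H.MP_4f47f1_al Pool.Agent.H.MP_58728c_al Matrix
open scoped MatrixGroups

structure Dat {A : Type} [Group A] (L : Subgroup A) (z : A) (c : A → ZMod 2) : Prop where
  comp : Comp L z
  z1 : z ≠ 1
  z2 : z * z = 1
  add : ∀ a b, c (a * b) = c a + c b
  out : ∀ a, a ∈ L ⊔ Cz L ↔ c a = 0
  a0 : ∃ a, c a = 1
  cab : ∀ a ∈ Cz L, ∀ b ∈ Cz L, a * b = b * a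
  der : ∀ a b, a * b * a⁻¹ * b⁻¹ ∈ L

instance : Fact (Nat.Prime 5) := ⟨by norm_num⟩

abbrev F5 := ZMod 5

def t1 : SL(2, F5) := ⟨!![1, 1; 0, 1], by simp [det_fin_two]⟩
def t2 : SL(2, F5) := ⟨!![1, 0; 1, 1], by simp [det_fin_two]⟩

lemma scal (g : Matrix (Fin 2) (Fin 2) F5) (h1 : t1.1 * g = g * t1.1) (h2 : t2.1 * g = g * t2.1) :
    g 0 1 = 0 ∧ g 1 0 = 0 ∧ g 0 0 = g 1 1 := by
  have a := congrFun (congrFun h1 0) 0
  have b := congrFun (congrFun h1 0) 1
  have c := congrFun (congrFun h2 0) 0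
  simp [t1, t2, mul_apply, Fin.sum_univ_two] at a b c
  exact ⟨c, a, by linear_combination -b⟩

lemma scal' (g h : Matrix (Fin 2) (Fin 2) F5) (h1 : g 0 1 = 0 ∧ g 1 0 = 0 ∧ g 0 0 = g 1 1) :
    h * g = g * h := by
  ext i j
  fin_cases i <;> fin_cases j <;> simp [mul_apply, Fin.sum_univ_two, h1] <;> ring

lemma cz_top (g : SL(2, F5)) : g ∈ Cz (⊤ : Subgroup SL(2, F5)) ↔
    g.1 0 1 = 0 ∧ g.1 1 0 = 0 ∧ g.1 0 0 = g.1 1 1 :=
  ⟨fun h => scal _ (congrArg Subtype.val (h t1 trivial)) (congrArg Subtype.val (h t2 trivial)),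
    fun h l _ => Subtype.ext (scal' _ _ h)⟩

lemma comp_SL : Comp (⊤ : Subgroup SL(2, F5)) (-1) := by
  have hp : ⁅(⊤ : Subgroup SL(2, F5)), ⊤⁆ = ⊤ :=
    SL2.commutator_eq_top (a := (2 : F5)) (by decide) (by decide)
  refine ⟨inferInstance, hp.ge, fun W _ hW => ?_, ⟨⟨!![0, -1; 1, 0], by simp [det_fin_two]⟩, trivial,
    by simp [cz_top], by simp [cz_top, pow_two]⟩, fun u _ h1 h2 => ?_⟩
  · have hn : W.Normal := ⟨fun w hw l => hW l trivial w hw⟩
    have hs : IsSimpleGroup PSL(2, F5) :=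
      ProjectiveSpecialLinearGroup.rank_two_simple' ⟨2, by decide, by decide⟩
    have hz : ∀ g, g ∈ Subgroup.center SL(2, F5) → g ∈ Cz (⊤ : Subgroup SL(2, F5)) :=
      fun g hg l _ => Subgroup.mem_center_iff.1 hg l
    rcases hs.eq_bot_or_eq_top_of_normal _ (hn.map (QuotientGroup.mk' _)
      (QuotientGroup.mk'_surjective _)) with h | h
    · left
      rw [Subgroup.map_eq_bot_iff, QuotientGroup.ker_mk'] at h
      exact fun w hw => hz w (h hw)
    · right
      rw [eq_top_iff, ← hp]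
      refine (comm_le le_top fun d _ => ?_).trans (Subgroup.commutator_le_self _)
      obtain ⟨w, hw, e⟩ : (d : PSL(2, F5)) ∈ W.map (QuotientGroup.mk' _) := h ▸ Subgroup.mem_top _
      refine ⟨w, hw, hz _ ((QuotientGroup.eq_one_iff _).1 ?_)⟩
      rw [QuotientGroup.mk_mul, QuotientGroup.mk_inv, ← e]
      exact mul_inv_cancel _
  · rw [cz_top] at h1 h2
    have h3 := u.2
    rw [det_fin_two] at h3
    have e : (u ^ 2).1 = u.1 * u.1 := by rw [pow_two]; rfl
    simp only [e, mul_apply, Fin.sum_univ_two] at h2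
    have key : ∀ a b c d : F5, a * d - b * c = 1 → ¬ (b = 0 ∧ c = 0 ∧ a = d) →
        a * b + b * d = 0 ∧ c * a + d * c = 0 ∧ a * a + b * c = c * b + d * d →
        a * a + b * c = -1 := by decide
    have h4 := key _ _ _ _ h3 h1 h2
    apply Subtype.ext
    rw [e]
    ext i j
    fin_cases i <;> fin_cases j <;> simp [mul_apply, Fin.sum_univ_two, h2.1, h2.2.1, h4, ← h2.2.2]

lemma exists_dat : ∃ (A : Type) (_ : Group A) (_ : Finite A) (L : Subgroup A) (z : A)
    (c : A → ZMod 2), Dat L z c := by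
  set L := (⊤ : Subgroup SL(2, F5)).map SpecialLinearGroup.toGL with hL
  have mL : ∀ g, g ∈ L ↔ GeneralLinearGroup.det g = 1 := fun g =>
    ⟨by rintro ⟨s, -, rfl⟩; simp, fun h => ⟨⟨g.1, congrArg Units.val h⟩, trivial, Units.ext rfl⟩⟩
  have mC : ∀ g : GL (Fin 2) F5, g ∈ Cz L ↔ g.1 0 1 = 0 ∧ g.1 1 0 = 0 ∧ g.1 0 0 = g.1 1 1 := fun g =>
    ⟨fun h => scal _ (congrArg Units.val (h _ ⟨t1, trivial, rfl⟩))
      (congrArg Units.val (h _ ⟨t2, trivial, rfl⟩)), fun h l _ => Units.ext (scal' _ _ h)⟩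
  have hn : L.Normal := ⟨fun n hn g => by
    rw [mL] at hn ⊢
    simp [hn]⟩
  let e : F5ˣ → ZMod 2 := fun u => if u ^ 2 = 1 then 0 else 1
  refine ⟨GL (Fin 2) F5, _, inferInstance, L, SpecialLinearGroup.toGL (-1),
    fun g => e (GeneralLinearGroup.det g), comp_SL.map _ (fun h => ?_) hn, fun h => ?_, ?_,
    fun a b => ?_, fun a => ⟨fun h => ?_, fun h => ?_⟩, ?_, fun a ha b _ => ?_, fun a b => ?_⟩
  · have := congrArg (fun g : GL (Fin 2) F5 => g.1 0 1) (h (Subgroup.mem_top t1))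
    simp [t1] at this
  · have := congrArg (fun g : GL (Fin 2) F5 => g.1 0 0) h
    simp at this
    exact absurd this (by decide)
  · rw [← map_mul]; simp
  · rw [map_mul]
    exact (by decide : ∀ u v, e (u * v) = e u + e v) _ _
  · have : L ⊔ Cz L ≤ ((powMonoidHom 2).comp GeneralLinearGroup.det).ker := by
      refine sup_le (fun g hg => ?_) fun g hg => ?_
      · simp [MonoidHom.mem_ker, (mL g).1 hg]
      · obtain ⟨a, b, c⟩ := (mC g).1 hg
        have h0 : (GeneralLinearGroup.det g : F5) = g.1 1 1 * g.1 1 1 := by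
          simp [det_fin_two, a, c]
        exact (by decide : ∀ (u : F5ˣ) (x : F5), (u : F5) = x * x → u ^ 2 = 1) _ _ h0
    exact if_pos (this h)
  · let s : GL (Fin 2) F5 := GeneralLinearGroup.mkOfDetNeZero !![2, 0; 0, 2] (by
      simp [det_fin_two]; decide)
    have hs : GeneralLinearGroup.det s = -1 := Units.ext (by simp [s, det_fin_two]; decide)
    rcases (by decide : ∀ u, e u = 0 → u = 1 ∨ u = -1) _ h with h | h
    · exact Subgroup.mem_sup_left ((mL a).2 h)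
    · rw [show a = a * s⁻¹ * s by group]
      exact Subgroup.mul_mem_sup ((mL _).2 (by simp [h, hs])) ((mC s).2 (by simp [s]))
  · refine ⟨GeneralLinearGroup.mkOfDetNeZero !![2, 0; 0, 1] (by simp [det_fin_two]; decide), ?_⟩
    exact (by decide : ∀ u : F5ˣ, (u : F5) = 2 → e u = 1) _ (by simp [det_fin_two])
  · exact Units.ext (scal' _ _ ((mC a).1 ha)).symm
  · rw [mL]; simp

end Pool.Agent.H.MP_8ef39f_al
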