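import Pool.Agent.H.MP_8ef39f_al.C

set_option autoImplicit false

namespace Pool.Agent.H.MP_8ef39f_al

open Function Pointwise Pool.Agent.H.MP_4f47f1_al Pool.Agent.H.MP_58728c_al

def FG (G : Type) [Group G] : Cl := fun H _ => ∀ K : Cl, Phi K → K G → K H

lemma phi_FG (G : Type) [Group G] [Finite G] : Phi (FG G) :=
  ⟨fun _ _ h => h _ phi_fin (inferInstance : Finite G),
    fun X Y _ _ f hf h K hK hG => hK.2.1 X Y f hf (h K hK hG),
    fun X _ N1 N2 _ _ hb x1 x2 K hK hG => hK.2.2 X N1 N2 hb (x1 K hK hG) (x2 K hK hG)⟩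

def BB (G : Type) [Group G] : Cl := fun X _ =>
  Finite X ∧ (∀ U : Subgroup X, U.IsSubnormal → FG G U) ∧ PP X

lemma phi_BB (G : Type) [Group G] [Finite G] : Phi (BB G) := by
  refine ⟨fun _ _ h => h.1, ?_, ?_⟩
  · rintro X Y _ _ f hf ⟨_, h1, h2⟩
    exact ⟨Finite.of_surjective f hf, fun U hU => (phi_FG G).2.1 _ _ (f.subgroupComap U)
      (f.subgroupComap_surjective_of_surjective U hf) (h1 _ (hU.comap f)), h2.quo f hf⟩
  · rintro X _ N1 N2 _ _ hb ⟨f1, a1, a2⟩ ⟨f2, b1, b2⟩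
    have hk : ∀ x, QuotientGroup.mk' N1 x = 1 → QuotientGroup.mk' N2 x = 1 → x = 1 := fun x a b => by
      have : x ∈ N1 ⊓ N2 := ⟨(QuotientGroup.eq_one_iff _).1 a, (QuotientGroup.eq_one_iff _).1 b⟩
      rwa [hb] at this
    refine ⟨phi_fin.2.2 X N1 N2 hb f1 f2, fun U hU => (phi_FG G).qr
      ((QuotientGroup.mk' N1).subgroupMap U) ((QuotientGroup.mk' N2).subgroupMap U) (MonoidHom.id _)
      (MonoidHom.subgroupMap_surjective _ U) (MonoidHom.subgroupMap_surjective _ U) surjective_id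
      (a1 _ hU.quotient) (b1 _ hU.quotient) ?_, PP.sd _ _ (QuotientGroup.mk'_surjective _)
        (QuotientGroup.mk'_surjective _) hk a2 b2⟩
    rintro x ⟨h1, h2⟩
    exact Subtype.ext (hk _ (congrArg Subtype.val h1) (congrArg Subtype.val h2))

lemma BB.sub {G X : Type} [Group G] [Finite G] [Group X] (h : BB G X) (Y : Subgroup X)
    (hY : Y.IsSubnormal) : BB G Y :=
  have := h.1
  ⟨inferInstance, fun U hU => (phi_FG G).iso (Subgroup.equivMapOfInjective U _
    Y.subtype_injective).symm (h.2.1 _ (hU.trans' hY)), h.2.2.sub Y hY⟩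

def HH (G : Type) [Group G] (k : ℕ) : Cl := fun X _ => BB G X ∧ ∀ x : Fin k → X, val x = 1

lemma phi_HH (G : Type) [Group G] [Finite G] (k : ℕ) : Phi (HH G k) := by
  refine ⟨fun _ _ h => h.1.1, ?_, ?_⟩
  · rintro X Y _ _ f hf ⟨h1, h2⟩
    have := h1.1
    refine ⟨(phi_BB G).2.1 _ _ f hf h1, fun y => ?_⟩
    choose x hx using fun j => hf (y j)
    rw [show y = f ∘ x from funext fun j => (hx j).symm, ← val_quo h1.2.2 f hf, h2, map_one]
  · rintro X _ N1 N2 _ _ hb ⟨a1, a2⟩ ⟨b1, b2⟩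
    have h := (phi_BB G).2.2 X N1 N2 hb a1 b1
    have := h.1
    refine ⟨h, fun x => ?_⟩
    have : val x ∈ N1 ⊓ N2 := ⟨(QuotientGroup.eq_one_iff _).1 ((val_quo h.2.2 _
      (QuotientGroup.mk'_surjective N1) x).trans (a2 _)), (QuotientGroup.eq_one_iff _).1
        ((val_quo h.2.2 _ (QuotientGroup.mk'_surjective N2) x).trans (b2 _))⟩
    rwa [hb] at this

lemma HH.sub {G X : Type} [Group G] [Finite G] [Group X] {k : ℕ} (h : HH G (k + 1) X)
    (Y : Subgroup X) (hY : Y.IsSubnormal) : HH G (k + 1) Y :=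
  have := h.1.1
  ⟨h.1.sub Y hY, fun x => Y.subtype_injective (by rw [val_sub h.1.2.2 Y hY, h.2, map_one])⟩

variable {A : Type} [Group A] {L : Subgroup A} {z : A} {c : A → ZMod 2}

lemma Dat.pp (h : Dat L z c) : PP A := by
  intro M T _ _ ι σ h1 _ h3 h4 h5
  push Not at h3
  obtain ⟨s, t, h3⟩ := h3
  obtain ⟨m, rfl⟩ := h4 s
  obtain ⟨n, rfl⟩ := h4 t
  have e : σ (m * n * m⁻¹ * n⁻¹) ≠ 1 := by
    rwa [map_mul, map_mul, map_mul, map_inv, map_inv, Ne, mul_inv_eq_one, mul_inv_eq_iff_eq_mul]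
  refine ⟨L, z, h.comp, (h.comp.dich h1).resolve_right fun hle => e (h5 ?_), _, ?_, e⟩
  · rw [MonoidHom.mem_ker, map_mul, map_mul, map_mul, map_inv, map_inv,
      h.cab _ (hle ⟨m, rfl⟩) _ (hle ⟨n, rfl⟩)]
    simp
  · rw [map_mul, map_mul, map_mul, map_inv, map_inv]; exact h.der _ _

open Classical in
noncomputable def ee (a : A) : ZMod 2 := if a = 1 then 0 else 1

lemma Dat.vl (h : Dat L z c) {k : ℕ} (x : Fin k → A) :
    (val x = 1 ∨ val x = z) ∧ ee (val x) = ∏ j, c (x j) := by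
  have key : ∀ p ∈ Cs x, p = (L, z) := fun p hp => by
    have : L = p.1 := by
      by_contra hne
      have := h.comp.sep hp.1 hne
      exact hp.1.nab fun a ha b hb => h.cab _ (this hb) _ (this ha)
    exact Prod.ext this.symm (hp.1.uniq (this ▸ h.comp))
  by_cases hx : ∀ j, c (x j) = 1
  · have : Cs x = {(L, z)} := Set.eq_singleton_iff_unique_mem.2
      ⟨⟨h.comp, fun j hj => one_ne_zero ((hx j).symm.trans ((h.out _).1 hj))⟩, key⟩
    have e : val x = z := by rw [val, this, finprod_mem_singleton]; exact cs_zc h.comp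
    exact ⟨Or.inr e, by simp [e, ee, h.z1, hx]⟩
  · push Not at hx
    obtain ⟨j, hj⟩ := hx
    have hj0 : c (x j) = 0 := (by decide : ∀ a : ZMod 2, a ≠ 1 → a = 0) _ hj
    have : Cs x = ∅ := Set.eq_empty_of_forall_notMem fun p hp => hp.2 j (by
      rw [key p hp]; exact (h.out _).2 hj0)
    have e : val x = 1 := by rw [val, this, finprod_mem_empty, map_one]
    exact ⟨Or.inl e, by rw [e, Finset.prod_eq_zero (Finset.mem_univ j) hj0]; simp [ee]⟩

lemma Dat.c1 (h : Dat L z c) : c 1 = 0 := (h.out 1).1 (Subgroup.one_mem _)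

def Pk (h : Dat L z c) (k : ℕ) : Subgroup ((Fin k → ZMod 2) → A) where
  carrier := {a | ∃ (s : ZMod 2) (t : Fin k → ZMod 2), ∀ v, c (a v) = s + ∑ i, v i * t i}
  one_mem' := ⟨0, 0, fun v => by simp [h.c1]⟩
  mul_mem' := by
    rintro a b ⟨s, t, h1⟩ ⟨s', t', h2⟩
    refine ⟨s + s', t + t', fun v => ?_⟩
    simp only [Pi.mul_apply, h.add, h1, h2, Pi.add_apply, mul_add, Finset.sum_add_distrib]
    ring
  inv_mem' := by
    rintro a ⟨s, t, h1⟩
    refine ⟨s, t, fun v => ?_⟩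
    have := h.add (a v)⁻¹ (a v)
    rw [inv_mul_cancel, h.c1] at this
    rw [← h1]
    exact (by decide : ∀ x y : ZMod 2, 0 = x + y → x = y) _ _ this

def Nk (h : Dat L z c) (k : ℕ) : Subgroup (Pk h k) where
  carrier := {w | (∀ v, w.1 v = 1 ∨ w.1 v = z) ∧ ∑ v, ee (w.1 v) = 0}
  one_mem' := ⟨fun _ => Or.inl rfl, by simp [ee]⟩
  mul_mem' := by
    rintro a b ⟨a1, a2⟩ ⟨b1, b2⟩
    have : ∀ v, ((a * b).1 v = 1 ∨ (a * b).1 v = z) ∧ ee ((a * b).1 v) = ee (a.1 v) + ee (b.1 v) :=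
      fun v => by
        rcases a1 v with e | e <;> rcases b1 v with e' | e' <;> simp [e, e', ee, h.z1, h.z2]
        rfl
    exact ⟨fun v => (this v).1, by simp only [this, Finset.sum_add_distrib, a2, b2, add_zero]⟩
  inv_mem' := by
    rintro a ⟨a1, a2⟩
    have : a⁻¹ = a := Subtype.ext (funext fun v => by
      rcases a1 v with e | e
      · simp [e]
      · simpa [e] using inv_eq_of_mul_eq_one_left h.z2)
    rw [this]; exact ⟨a1, a2⟩

instance (h : Dat L z c) (k : ℕ) : (Nk h k).Normal := ⟨fun n hn g => by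
  have : g * n * g⁻¹ = n := Subtype.ext (funext fun v => by
    rcases hn.1 v with e | e
    · simp [e]
    · simp [e, Subgroup.mem_center_iff.1 h.comp.cent (g.1 v)])
  rwa [this]⟩

def pr (h : Dat L z c) (k : ℕ) (v : Fin k → ZMod 2) : Pk h k →* A :=
  (Pi.evalMonoidHom _ v).comp (Pk h k).subtype

lemma pr_surj (h : Dat L z c) (k : ℕ) (v : Fin k → ZMod 2) : Surjective (pr h k v) :=
  fun a => ⟨⟨fun _ => a, c a, 0, fun _ => by simp⟩, rfl⟩

lemma Pk_mem [Finite A] (h : Dat L z c) (k : ℕ) {B : Cl} (hB : Phi B) (hA : B A) : B (Pk h k) :=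
  mem_of_res_bot ⟨B, hB, hB.triv hA⟩ (eq_bot_iff.2 fun _ hx => Subtype.ext (funext fun v =>
    res_le ⟨B, hB, hB.triv hA⟩ _ (pr_surj h k v) hA hx))

lemma val_iff [Finite A] (h : Dat L z c) (k : ℕ) (hP : PP (Pk h k)) {m : ℕ} (x : Fin m → Pk h k) :
    val (QuotientGroup.mk' (Nk h k) ∘ x) = 1 ↔ ∑ v, ∏ j, c ((x j).1 v) = 0 := by
  rw [← val_quo hP _ (QuotientGroup.mk'_surjective _), QuotientGroup.mk'_apply,
    QuotientGroup.eq_one_iff]
  have e : ∀ v, (val x).1 v = val (pr h k v ∘ x) := fun v => val_quo hP _ (pr_surj h k v) x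
  have e2 : ∑ v, ee ((val x).1 v) = ∑ v, ∏ j, c ((x j).1 v) :=
    Finset.sum_congr rfl fun v _ => by rw [e, (h.vl _).2]; rfl
  exact ⟨fun h1 => e2 ▸ h1.2, fun h1 => ⟨fun v => e v ▸ (h.vl _).1, e2 ▸ h1⟩⟩

lemma lo {k m : ℕ} (hm : m < k) (s : Fin m → ZMod 2) (t : Fin m → Fin k → ZMod 2) :
    ∑ v : Fin k → ZMod 2, ∏ j, (s j + ∑ i, v i * t j i) = 0 := by
  have := MvPolynomial.sum_eval_eq_zero (K := ZMod 2) (σ := Fin k)
    (∏ j, (MvPolynomial.C (s j) + ∑ i, MvPolynomial.X i * MvPolynomial.C (t j i))) (by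
      refine (MvPolynomial.totalDegree_finsetProd _ _).trans_lt ?_
      refine (Finset.sum_le_card_nsmul _ _ 1 fun j _ => ?_).trans_lt (by simpa using hm)
      refine (MvPolynomial.totalDegree_add _ _).trans (max_le (by simp) ?_)
      refine MvPolynomial.totalDegree_finsetSum_le fun i _ => ?_
      exact (MvPolynomial.totalDegree_mul _ _).trans (by simp))
  simpa using this

theorem main : ∃ (G : Type) (_ : Group G) (_ : Finite G), ∀ m k, m < k →
    ∃ (X : Type) (_ : Group X), HH G m X ∧ ¬ HH G k X := by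
  obtain ⟨A, _, _, L, z, c, h⟩ := exists_dat
  refine ⟨∀ U : Subgroup A, U, inferInstance, inferInstance, fun m k hm => ?_⟩
  have hP := Pk_mem h k (phi_BB (∀ U : Subgroup A, U)) ⟨inferInstance, fun U _ K hK hG =>
    hK.2.1 _ _ (Pi.evalMonoidHom (fun U : Subgroup A => U) U) (surjective_eval U) hG, h.pp⟩
  refine ⟨Pk h k ⧸ Nk h k, _, ⟨(phi_BB _).2.1 _ _ _ (QuotientGroup.mk'_surjective _) hP,
    fun y => ?_⟩, fun h1 => ?_⟩
  · choose x hx using fun j => QuotientGroup.mk'_surjective (Nk h k) (y j)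
    rw [show y = QuotientGroup.mk' (Nk h k) ∘ x from funext fun j => (hx j).symm,
      val_iff h k hP.2.2]
    choose s t hs using fun j => (x j).2
    simp only [hs]
    exact lo hm s t
  · obtain ⟨a, ha⟩ := h.a0
    have e : ∀ u : ZMod 2, c (if u = 1 then a else 1) = u := fun u => by
      by_cases hu : u = 1
      · simp [hu, ha]
      · rw [if_neg hu, h.c1, (by decide : ∀ a : ZMod 2, a ≠ 1 → a = 0) _ hu]
    have := (val_iff h k hP.2.2 fun j => ⟨fun v => if v j = 1 then a else 1, 0, Pi.single j 1,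
      fun v => by simp [e, Pi.single_apply]⟩).1 (h1.2 _)
    simp only [e] at this
    have e2 := Finset.prod_univ_sum (fun _ : Fin k => (Finset.univ : Finset (ZMod 2))) fun _ u => u
    rw [Fintype.piFinset_univ, this, (by decide : ∑ u : ZMod 2, u = 1)] at e2
    simp at e2

end Pool.Agent.H.MP_8ef39f_al
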